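import Pool.Agent.N496.LT.Defs

/-!
# Project LT, jobs P5A and P5B: Laplacians of products
-/

set_option autoImplicit false

open scoped Matrix

noncomputable section

namespace Pool.Agent.U755.LT

open Pool.Agent.N496.LT Pool.Agent.TH630.Tor Pool.Agent.Helper993.FK

section ring
variable {G : Type} [Group G]

/-- the involution of the integral group ring -/
def iv (a : MonoidAlgebra ℤ G) : MonoidAlgebra ℤ G := MonoidAlgebra.mapDomain (fun g => g⁻¹) a

theorem iv_zero : iv (0 : MonoidAlgebra ℤ G) = 0 := MonoidAlgebra.mapDomain_zero _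

theorem iv_add (a b : MonoidAlgebra ℤ G) : iv (a + b) = iv a + iv b := MonoidAlgebra.mapDomain_add _ _ _

theorem iv_single (g : G) (r : ℤ) : iv (MonoidAlgebra.single g r) = MonoidAlgebra.single g⁻¹ r :=
  MonoidAlgebra.mapDomain_single

theorem iv_one : iv (1 : MonoidAlgebra ℤ G) = 1 := by
  rw [MonoidAlgebra.one_def, iv_single, inv_one]

theorem iv_neg (a : MonoidAlgebra ℤ G) : iv (-a) = - iv a := by
  rw [eq_neg_iff_add_eq_zero, ← iv_add, neg_add_cancel, iv_zero]

theorem iv_sum {ι : Type} (s : Finset ι) (f : ι → MonoidAlgebra ℤ G) : iv (∑ i ∈ s, f i) = ∑ i ∈ s, iv (f i) := by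
  classical
  induction s using Finset.induction_on with
  | empty => simp [iv_zero]
  | insert a s ha ih => rw [Finset.sum_insert ha, Finset.sum_insert ha, iv_add, ih]

theorem iv_mul (a b : MonoidAlgebra ℤ G) : iv (a * b) = iv b * iv a := by
  induction a using MonoidAlgebra.induction_linear with
  | zero => rw [zero_mul, iv_zero, mul_zero]
  | add a a' h1 h2 => rw [add_mul, iv_add, iv_add, mul_add, h1, h2]
  | single g r =>
    induction b using MonoidAlgebra.induction_linear with
    | zero => rw [mul_zero, iv_zero, zero_mul]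
    | add b b' h1 h2 => rw [mul_add, iv_add, iv_add, add_mul, h1, h2]
    | single h s =>
      rw [MonoidAlgebra.single_mul_single, iv_single, iv_single, iv_single, MonoidAlgebra.single_mul_single,
        mul_inv_rev, mul_comm r s]

theorem iv_iv (a : MonoidAlgebra ℤ G) : iv (iv a) = a := by
  induction a using MonoidAlgebra.induction_linear with
  | zero => rw [iv_zero, iv_zero]
  | add a a' h1 h2 => rw [iv_add, iv_add, h1, h2]
  | single g r => rw [iv_single, iv_single, inv_inv]

/-- the coefficient of the unit element -/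
def tau (a : MonoidAlgebra ℤ G) : ℤ := a.coeff 1

theorem tau_zero : tau (0 : MonoidAlgebra ℤ G) = 0 := rfl

theorem tau_add (a b : MonoidAlgebra ℤ G) : tau (a + b) = tau a + tau b := rfl

theorem tau_neg (a : MonoidAlgebra ℤ G) : tau (-a) = - tau a := by
  rw [eq_neg_iff_add_eq_zero, ← tau_add, neg_add_cancel, tau_zero]

theorem tau_sum {ι : Type} (s : Finset ι) (f : ι → MonoidAlgebra ℤ G) :
    tau (∑ i ∈ s, f i) = ∑ i ∈ s, tau (f i) := by
  classical
  induction s using Finset.induction_on with
  | empty => simp [tau_zero]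
  | insert a s ha ih => rw [Finset.sum_insert ha, Finset.sum_insert ha, tau_add, ih]

theorem tau_single [DecidableEq G] (g : G) (r : ℤ) : tau (MonoidAlgebra.single g r) = if g = 1 then r else 0 := by
  unfold tau
  rw [MonoidAlgebra.coeff_single, Finsupp.single_apply]

theorem tau_mul_comm (a b : MonoidAlgebra ℤ G) : tau (a * b) = tau (b * a) := by
  classical
  induction a using MonoidAlgebra.induction_linear with
  | zero => rw [zero_mul, mul_zero]
  | add a a' h1 h2 => rw [add_mul, mul_add, tau_add, tau_add, h1, h2]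
  | single g r =>
    induction b using MonoidAlgebra.induction_linear with
    | zero => rw [mul_zero, zero_mul]
    | add b b' h1 h2 => rw [mul_add, add_mul, tau_add, tau_add, h1, h2]
    | single h s =>
      rw [MonoidAlgebra.single_mul_single, MonoidAlgebra.single_mul_single, tau_single, tau_single, mul_comm r s]
      have : g * h = 1 ↔ h * g = 1 := by
        rw [mul_eq_one_iff_eq_inv, mul_eq_one_iff_eq_inv']
      simp only [this]

end ring

section mat
variable {G : Type} [Group G] {ι κ : Type}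

/-- the adjoint matrix -/
def adj (A : Matrix ι κ (MonoidAlgebra ℤ G)) : Matrix κ ι (MonoidAlgebra ℤ G) := Aᵀ.map iv

theorem adj_apply (A : Matrix ι κ (MonoidAlgebra ℤ G)) (i : κ) (j : ι) : adj A i j = iv (A j i) := rfl

theorem adj_add (A B : Matrix ι κ (MonoidAlgebra ℤ G)) : adj (A + B) = adj A + adj B := by
  ext1 i j
  exact iv_add _ _

theorem adj_mul {μ : Type} [Fintype κ] (A : Matrix ι κ (MonoidAlgebra ℤ G)) (B : Matrix κ μ (MonoidAlgebra ℤ G)) :
    adj (A * B) = adj B * adj A := by
  ext1 i j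
  rw [adj_apply, Matrix.mul_apply, Matrix.mul_apply, iv_sum]
  refine Finset.sum_congr rfl fun k _ => ?_
  rw [iv_mul]
  rfl

theorem adj_adj (A : Matrix ι κ (MonoidAlgebra ℤ G)) : adj (adj A) = A := by
  ext1 i j
  exact iv_iv _

theorem adj_zero : adj (0 : Matrix ι κ (MonoidAlgebra ℤ G)) = 0 := by
  ext1 i j
  exact iv_zero

/-- the trace of a matrix over the group ring -/
def TR [Fintype ι] (A : Matrix ι ι (MonoidAlgebra ℤ G)) : ℤ := ∑ i, tau (A i i)

theorem TR_add [Fintype ι] (A B : Matrix ι ι (MonoidAlgebra ℤ G)) : TR (A + B) = TR A + TR B := by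
  unfold TR
  rw [← Finset.sum_add_distrib]
  rfl

theorem TR_neg [Fintype ι] (A : Matrix ι ι (MonoidAlgebra ℤ G)) : TR (-A) = - TR A := by
  unfold TR
  rw [← Finset.sum_neg_distrib]
  exact Finset.sum_congr rfl fun i _ => tau_neg _

theorem TR_mul_comm [Fintype ι] [Fintype κ] (A : Matrix ι κ (MonoidAlgebra ℤ G))
    (B : Matrix κ ι (MonoidAlgebra ℤ G)) : TR (A * B) = TR (B * A) := by
  unfold TR
  simp only [Matrix.mul_apply, tau_sum]
  rw [Finset.sum_comm]
  refine Finset.sum_congr rfl fun i _ => Finset.sum_congr rfl fun j _ => tau_mul_comm _ _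

/-- the sign of the degree -/
def eps [DecidableEq ι] (deg : ι → ℕ) : Matrix ι ι (MonoidAlgebra ℤ G) := Matrix.diagonal fun i => (-1) ^ deg i

/-- homogeneous of degree zero -/
def BD (deg : ι → ℕ) (A : Matrix ι ι (MonoidAlgebra ℤ G)) : Prop := ∀ i j, A i j ≠ 0 → deg i = deg j

theorem BD.add {deg : ι → ℕ} {A B : Matrix ι ι (MonoidAlgebra ℤ G)} (hA : BD deg A) (hB : BD deg B) :
    BD deg (A + B) := by
  intro i j h
  by_contra h1
  apply h
  have e1 : A i j = 0 := by
    by_contra h2
    exact h1 (hA i j h2)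
  have e2 : B i j = 0 := by
    by_contra h2
    exact h1 (hB i j h2)
  rw [Matrix.add_apply, e1, e2, add_zero]

theorem BD.mul [Fintype ι] {deg : ι → ℕ} {A B : Matrix ι ι (MonoidAlgebra ℤ G)} (hA : BD deg A) (hB : BD deg B) :
    BD deg (A * B) := by
  intro i j h
  rw [Matrix.mul_apply] at h
  obtain ⟨k, -, hk⟩ := Finset.exists_ne_zero_of_sum_ne_zero h
  exact (hA i k fun h0 => hk (by rw [h0, zero_mul])).trans (hB k j fun h0 => hk (by rw [h0, mul_zero]))

theorem BD.one [DecidableEq ι] {deg : ι → ℕ} : BD deg (1 : Matrix ι ι (MonoidAlgebra ℤ G)) := by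
  intro i j h
  by_contra h1
  exact h (Matrix.one_apply_ne fun h2 => h1 (by rw [h2]))

theorem BD.pow [Fintype ι] [DecidableEq ι] {deg : ι → ℕ} {A : Matrix ι ι (MonoidAlgebra ℤ G)} (hA : BD deg A)
    (k : ℕ) : BD deg (A ^ k) := by
  induction k with
  | zero => rw [pow_zero]; exact BD.one
  | succ k ih => rw [pow_succ]; exact ih.mul hA

theorem BD.comm_eps [Fintype ι] [DecidableEq ι] {deg : ι → ℕ} {A : Matrix ι ι (MonoidAlgebra ℤ G)}
    (hA : BD deg A) : eps deg * A = A * eps deg := by
  ext1 i j
  unfold eps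
  rw [Matrix.diagonal_mul, Matrix.mul_diagonal]
  by_cases h : A i j = 0
  · rw [h, mul_zero, zero_mul]
  · rw [hA i j h]
    exact ((Commute.neg_one_left _).pow_left _).eq

end mat

section lap
variable {G : Type} [Group G] (C : GCx G)

/-- the Laplacian, all degrees at once -/
def lap : Matrix C.ι C.ι (MonoidAlgebra ℤ G) := C.D * adj C.D + adj C.D * C.D

theorem adj_sq : adj C.D * adj C.D = 0 := by
  rw [← adj_mul, C.D_sq, adj_zero]

theorem D_anti : eps C.deg * C.D = - (C.D * eps C.deg) := by
  ext1 i j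
  unfold eps
  rw [Matrix.neg_apply, Matrix.diagonal_mul, Matrix.mul_diagonal]
  by_cases h : C.D i j = 0
  · rw [h, mul_zero, zero_mul, neg_zero]
  · rw [C.D_deg i j h, pow_succ, mul_neg_one, neg_mul]
    congr 1
    exact ((Commute.neg_one_left _).pow_left _).eq

theorem adjD_anti : eps C.deg * adj C.D = - (adj C.D * eps C.deg) := by
  ext1 i j
  unfold eps
  rw [Matrix.neg_apply, Matrix.diagonal_mul, Matrix.mul_diagonal, adj_apply]
  by_cases h : C.D j i = 0
  · rw [h, iv_zero, mul_zero, zero_mul, neg_zero]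
  · rw [C.D_deg j i h, pow_succ, mul_neg_one, mul_neg, neg_neg]
    exact ((Commute.neg_one_left _).pow_left _).eq

theorem lap_BD : BD C.deg (lap C) := by
  refine BD.add ?_ ?_
  · intro i j h
    rw [Matrix.mul_apply] at h
    obtain ⟨k, -, hk⟩ := Finset.exists_ne_zero_of_sum_ne_zero h
    have h1 := C.D_deg i k fun h0 => hk (by rw [h0, zero_mul])
    have h2 := C.D_deg j k fun h0 => hk (by rw [adj_apply, h0, iv_zero, mul_zero])
    rw [h1, h2]
  · intro i j h
    rw [Matrix.mul_apply] at h
    obtain ⟨k, -, hk⟩ := Finset.exists_ne_zero_of_sum_ne_zero h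
    have h1 := C.D_deg k j fun h0 => hk (by rw [h0, mul_zero])
    have h2 := C.D_deg k i fun h0 => hk (by rw [adj_apply, h0, iv_zero, zero_mul])
    omega

theorem D_lap : C.D * lap C = lap C * C.D := by
  unfold lap
  rw [Matrix.mul_add, Matrix.add_mul, ← Matrix.mul_assoc, C.D_sq, Matrix.zero_mul, zero_add,
    Matrix.mul_assoc (adj C.D), C.D_sq, Matrix.mul_zero, add_zero, Matrix.mul_assoc]

/-- McKean and Singer: the alternating sum of the traces of the powers of the Laplacians vanishes. -/
theorem TR_eps_lap (k : ℕ) : TR (eps C.deg * lap C ^ (k + 1)) = 0 := by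
  have h1 : eps C.deg * lap C ^ (k + 1) = eps C.deg * C.D * (adj C.D * lap C ^ k) +
      eps C.deg * adj C.D * (C.D * lap C ^ k) := by
    rw [pow_succ', lap, Matrix.add_mul, Matrix.mul_add, ← lap]
    simp only [Matrix.mul_assoc]
  have hc : ∀ k : ℕ, C.D * lap C ^ k = lap C ^ k * C.D := fun k => by
    induction k with
    | zero => rw [pow_zero, Matrix.mul_one, Matrix.one_mul]
    | succ k ih => rw [pow_succ', ← Matrix.mul_assoc, D_lap, Matrix.mul_assoc, ih, Matrix.mul_assoc]
  have h2 : TR (eps C.deg * C.D * (adj C.D * lap C ^ k)) = - TR (eps C.deg * adj C.D * (C.D * lap C ^ k)) := by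
    rw [TR_mul_comm, ← TR_neg]
    congr 1
    rw [Matrix.mul_assoc (adj C.D), ← Matrix.mul_assoc (lap C ^ k), ← ((lap_BD C).pow k).comm_eps,
      Matrix.mul_assoc (eps C.deg), ← hc, ← Matrix.mul_assoc (adj C.D), adjD_anti, Matrix.neg_mul, neg_neg]
  rw [h1, TR_add, h2, neg_add_cancel]

/-- the traces of the powers of the Laplacians -/
def mom (n k : ℕ) : ℤ := ∑ i, if C.deg i = n then tau ((lap C ^ k) i i) else 0

theorem tau_neg_pow (n : ℕ) (a : MonoidAlgebra ℤ G) : tau ((-1) ^ n * a) = (-1) ^ n * tau a := by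
  rcases neg_one_pow_eq_or (MonoidAlgebra ℤ G) n with h | h
  · rcases neg_one_pow_eq_or ℤ n with h' | h'
    · rw [h, h', one_mul, one_mul]
    · exfalso
      have h2 := congrArg tau h
      rcases Nat.even_or_odd n with he | ho
      · rw [he.neg_one_pow] at h'
        norm_num at h'
      · rw [ho.neg_one_pow, tau_neg] at h2
        classical
        rw [MonoidAlgebra.one_def, tau_single, if_pos rfl] at h2
        norm_num at h2
  · rcases Nat.even_or_odd n with he | ho
    · exfalso
      rw [he.neg_one_pow] at h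
      have h2 := congrArg tau h
      rw [tau_neg] at h2
      classical
      rw [MonoidAlgebra.one_def, tau_single, if_pos rfl] at h2
      norm_num at h2
    · rw [ho.neg_one_pow, ho.neg_one_pow, neg_one_mul, tau_neg, neg_one_mul]

theorem mckean_singer (N : ℕ) (hN : ∀ i, C.deg i < N) (k : ℕ) :
    ∑ n ∈ Finset.range N, (-1) ^ n * mom C n (k + 1) = 0 := by
  rw [← TR_eps_lap C k]
  unfold mom TR
  simp only [Finset.mul_sum]
  rw [Finset.sum_comm]
  refine Finset.sum_congr rfl fun i _ => ?_
  rw [Finset.sum_eq_single (C.deg i)]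
  · rw [if_pos rfl]
    unfold eps
    rw [Matrix.diagonal_mul, tau_neg_pow]
  · intro n _ hn
    rw [if_neg (Ne.symm hn), mul_zero]
  · intro h
    exact absurd (Finset.mem_range.2 (hN i)) h

end lap

end Pool.Agent.U755.LT
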