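import Pool.Agent.TH630.Tor.Cx

/-!
# Project LT, jobs P5A and P5B: measures
-/

set_option autoImplicit false

open scoped InnerProductSpace Topology CompactlySupported MeasureTheory

noncomputable section

namespace Pool.Agent.U755.LT

open MeasureTheory Polynomial Pool.Agent.Helper993.FK Pool.Agent.Helper993.Delta

/-- finite measures on the interval `[0, K]` -/
structure Cpt (μ : Measure ℝ) (K : ℝ) : Prop where
  fin : IsFiniteMeasure μ
  nonneg : 0 ≤ K
  supp : μ (Set.Icc 0 K)ᶜ = 0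

namespace Cpt

variable {μ ν : Measure ℝ} {K L : ℝ}

theorem ae (h : Cpt μ K) : ∀ᵐ x ∂μ, x ∈ Set.Icc 0 K := by
  rw [ae_iff]
  exact h.supp

theorem integrable (h : Cpt μ K) {f : ℝ → ℝ} (hf : Continuous f) : Integrable f μ := by
  have := h.fin
  obtain ⟨C, hC⟩ := isCompact_Icc.exists_bound_of_continuousOn (s := Set.Icc 0 K) hf.continuousOn
  refine Integrable.of_bound hf.aestronglyMeasurable C ?_
  filter_upwards [h.ae] with x hx
  exact hC x hx

theorem mono (h : Cpt μ K) (hKL : K ≤ L) : Cpt μ L :=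
  ⟨h.fin, h.nonneg.trans hKL, le_antisymm ((measure_mono (Set.compl_subset_compl.2
    (Set.Icc_subset_Icc_right hKL))).trans h.supp.le) bot_le⟩

theorem zero (hK : 0 ≤ K) : Cpt 0 K := ⟨inferInstance, hK, rfl⟩

theorem add (h : Cpt μ K) (h' : Cpt ν K) : Cpt (μ + ν) K := by
  have := h.fin
  have := h'.fin
  exact ⟨inferInstance, h.nonneg, by rw [Measure.add_apply, h.supp, h'.supp, add_zero]⟩

theorem sum {ι : Type} (s : Finset ι) (m : ι → Measure ℝ) (hK : 0 ≤ K) (h : ∀ i ∈ s, Cpt (m i) K) :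
    Cpt (∑ i ∈ s, m i) K := by
  classical
  induction s using Finset.induction_on with
  | empty => exact zero hK
  | insert a s ha ih =>
    rw [Finset.sum_insert ha]
    exact (h a (Finset.mem_insert_self _ _)).add (ih fun i hi => h i (Finset.mem_insert_of_mem hi))

theorem conv (h : Cpt μ K) (h' : Cpt ν L) : Cpt (μ ∗ ν) (K + L) := by
  have := h.fin
  have := h'.fin
  refine ⟨inferInstance, add_nonneg h.nonneg h'.nonneg, ?_⟩
  have h1 : ∀ᵐ x ∂(μ.prod ν), x.1 + x.2 ∈ Set.Icc 0 (K + L) := by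
    have e1 : ∀ᵐ x ∂(μ.prod ν), x.1 ∈ Set.Icc 0 K :=
      Measure.quasiMeasurePreserving_fst.ae h.ae
    have e2 : ∀ᵐ x ∂(μ.prod ν), x.2 ∈ Set.Icc 0 L :=
      Measure.quasiMeasurePreserving_snd.ae h'.ae
    filter_upwards [e1, e2] with x hx hy
    exact ⟨add_nonneg hx.1 hy.1, add_le_add hx.2 hy.2⟩
  unfold Measure.conv
  rw [Measure.map_apply (by fun_prop) measurableSet_Icc.compl]
  exact h1

/-- Two measures with the same moments are equal. -/
theorem ext (h : Cpt μ K) (h' : Cpt ν K) (hm : ∀ k : ℕ, ∫ x, x ^ k ∂μ = ∫ x, x ^ k ∂ν) : μ = ν := by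
  have i1 := h.fin
  have i2 := h'.fin
  have hp : ∀ p : ℝ[X], ∫ x, p.eval x ∂μ = ∫ x, p.eval x ∂ν := by
    intro p
    simp only [Polynomial.eval_eq_sum_range]
    rw [integral_finsetSum _ fun i _ => (h.integrable (continuous_pow i)).const_mul _,
      integral_finsetSum _ fun i _ => (h'.integrable (continuous_pow i)).const_mul _]
    refine Finset.sum_congr rfl fun i _ => ?_
    rw [integral_const_mul, integral_const_mul, hm]
  apply ext_of_forall_integral_eq_of_IsFiniteMeasure
  intro f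
  have key : ∀ ε : ℝ, 0 < ε → |∫ x, f x ∂μ - ∫ x, f x ∂ν| ≤ ε * (μ.real Set.univ + ν.real Set.univ) := by
    intro ε hε
    obtain ⟨p, hp'⟩ := exists_polynomial_near_of_continuousOn 0 K f f.continuous.continuousOn ε hε
    have b : ∀ {m : Measure ℝ}, Cpt m K → |∫ x, f x ∂m - ∫ x, p.eval x ∂m| ≤ ε * m.real Set.univ := by
      intro m hm
      have := hm.fin
      rw [← integral_sub (hm.integrable f.continuous) (hm.integrable p.continuous)]
      have hb : ∀ᵐ x ∂m, ‖f x - p.eval x‖ ≤ ε := by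
        filter_upwards [hm.ae] with x hx
        rw [Real.norm_eq_abs, abs_sub_comm]
        exact (hp' x hx).le
      exact norm_integral_le_of_norm_le_const hb
    have b1 := b h
    have b2 := b h'
    rw [hp p] at b1
    have : ∫ x, f x ∂μ - ∫ x, f x ∂ν = (∫ x, f x ∂μ - ∫ x, p.eval x ∂ν) - (∫ x, f x ∂ν - ∫ x, p.eval x ∂ν) := by
      ring
    rw [this, mul_add]
    exact (abs_sub _ _).trans (add_le_add b1 b2)
  have h0 : |∫ x, f x ∂μ - ∫ x, f x ∂ν| ≤ 0 := by
    apply le_of_forall_pos_le_add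
    intro δ hδ
    refine (key (δ / (μ.real Set.univ + ν.real Set.univ + 1)) (by positivity)).trans ?_
    rw [zero_add, div_mul_eq_mul_div, div_le_iff₀ (by positivity)]
    nlinarith [measureReal_nonneg (μ := μ) (s := Set.univ), measureReal_nonneg (μ := ν) (s := Set.univ)]
  exact sub_eq_zero.1 (abs_nonpos_iff.1 h0)

theorem conv_mom (h : Cpt μ K) (h' : Cpt ν L) (k : ℕ) : ∫ x, x ^ k ∂(μ ∗ ν) =
    ∑ m ∈ Finset.range (k + 1), (k.choose m : ℝ) * ((∫ x, x ^ m ∂μ) * ∫ x, x ^ (k - m) ∂ν) := by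
  have i1 := h.fin
  have i2 := h'.fin
  rw [integral_conv ((h.conv h').integrable (continuous_pow k))]
  simp only [add_pow]
  have e1 : ∀ x : ℝ, ∫ y, ∑ m ∈ Finset.range (k + 1), x ^ m * y ^ (k - m) * (k.choose m : ℝ) ∂ν =
      ∑ m ∈ Finset.range (k + 1), (k.choose m : ℝ) * (x ^ m * ∫ y, y ^ (k - m) ∂ν) := by
    intro x
    rw [integral_finsetSum _ fun m _ => ((h'.integrable (continuous_pow (k - m))).const_mul _).mul_const _]
    refine Finset.sum_congr rfl fun m _ => ?_
    rw [integral_mul_const, integral_const_mul]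
    ring
  simp only [e1]
  rw [integral_finsetSum _ fun m _ => ((h.integrable (continuous_pow m)).mul_const _).const_mul _]
  refine Finset.sum_congr rfl fun m _ => ?_
  rw [integral_const_mul, integral_mul_const]

theorem conv_atom (h : Cpt μ K) (h' : Cpt ν L) (h0 : μ {0} = 0) : (μ ∗ ν) {0} = 0 := by
  have i1 := h.fin
  have i2 := h'.fin
  unfold Measure.conv
  rw [Measure.map_apply (by fun_prop) (measurableSet_singleton 0)]
  have e1 : ∀ᵐ x ∂(μ.prod ν), x.1 ∈ Set.Icc 0 K :=
    Measure.quasiMeasurePreserving_fst.ae h.ae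
  have e2 : ∀ᵐ x ∂(μ.prod ν), x.2 ∈ Set.Icc 0 L :=
    Measure.quasiMeasurePreserving_snd.ae h'.ae
  have e3 : ∀ᵐ x ∂(μ.prod ν), x.1 ≠ 0 := by
    refine Measure.quasiMeasurePreserving_fst.ae (p := fun x : ℝ => x ≠ 0) ?_
    rw [ae_iff]
    simpa using h0
  have e4 : ∀ᵐ x ∂(μ.prod ν), x.1 + x.2 ≠ 0 := by
    filter_upwards [e1, e2, e3] with x h1 h2 h3 h4
    apply h3
    have := h1.1
    have := h2.1
    linarith
  rw [ae_iff] at e4
  simp only [ne_eq, not_not] at e4
  exact e4

/-- no atom at zero, and the logarithm is integrable -/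
structure Good (μ : Measure ℝ) : Prop where
  atom : μ {0} = 0
  log : Integrable Real.log μ

theorem conv_good (h : Cpt μ K) (h' : Cpt ν L) (g : Good μ) : Good (μ ∗ ν) := by
  have i1 := h.fin
  have i2 := h'.fin
  refine ⟨h.conv_atom h' g.atom, ?_⟩
  unfold Measure.conv
  rw [integrable_map_measure Real.measurable_log.aestronglyMeasurable (by fun_prop)]
  have e1 : ∀ᵐ x ∂(μ.prod ν), x.1 ∈ Set.Icc 0 K :=
    Measure.quasiMeasurePreserving_fst.ae h.ae
  have e2 : ∀ᵐ x ∂(μ.prod ν), x.2 ∈ Set.Icc 0 L :=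
    Measure.quasiMeasurePreserving_snd.ae h'.ae
  have e3 : ∀ᵐ x ∂(μ.prod ν), x.1 ≠ 0 := by
    refine Measure.quasiMeasurePreserving_fst.ae (p := fun x : ℝ => x ≠ 0) ?_
    rw [ae_iff]
    simpa using g.atom
  have hi : Integrable (fun x : ℝ × ℝ => |Real.log x.1| + |Real.log (K + L + 1)|) (μ.prod ν) :=
    (g.log.abs.comp_fst ν).add (integrable_const _)
  refine Integrable.mono' hi (Real.measurable_log.comp (by fun_prop)).aestronglyMeasurable ?_
  filter_upwards [e1, e2, e3] with x h1 h2 h3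
  have p1 : 0 < x.1 := lt_of_le_of_ne h1.1 (Ne.symm h3)
  have p2 := h2.1
  rw [Function.comp_apply, Real.norm_eq_abs]
  have l1 := Real.log_le_log p1 (show x.1 ≤ x.1 + x.2 by linarith)
  have l2 := Real.log_le_log (show 0 < x.1 + x.2 by linarith)
    (show x.1 + x.2 ≤ K + L + 1 by have := h1.2; have := h2.2; linarith)
  rw [abs_le]
  have a1 := neg_abs_le (Real.log x.1)
  have a2 := le_abs_self (Real.log (K + L + 1))
  have a3 := abs_nonneg (Real.log x.1)
  have a4 := abs_nonneg (Real.log (K + L + 1))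
  constructor <;> linarith

theorem good_add (g : Good μ) (g' : Good ν) : Good (μ + ν) :=
  ⟨by rw [Measure.add_apply, g.atom, g'.atom, add_zero], g.log.add_measure g'.log⟩

theorem good_zero : Good (0 : Measure ℝ) := ⟨rfl, integrable_zero_measure⟩

theorem good_sum {ι : Type} (s : Finset ι) (m : ι → Measure ℝ) (h : ∀ i ∈ s, Good (m i)) :
    Good (∑ i ∈ s, m i) := by
  classical
  induction s using Finset.induction_on with
  | empty => exact good_zero
  | insert a s ha ih =>
    rw [Finset.sum_insert ha]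
    exact good_add (h a (Finset.mem_insert_self _ _)) (ih fun i hi => h i (Finset.mem_insert_of_mem hi))

theorem good_of_sum {ι : Type} {s : Finset ι} {m : ι → Measure ℝ} (h : Good (∑ i ∈ s, m i)) {i : ι}
    (hi : i ∈ s) : Good (m i) := by
  classical
  have hle : m i ≤ ∑ i ∈ s, m i := Finset.single_le_sum (f := m) (fun _ _ => bot_le) hi
  exact ⟨le_antisymm ((hle _).trans h.atom.le) bot_le, h.log.mono_measure hle⟩

/-- If all moments of positive degree agree then the measures agree outside of zero. -/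
theorem ext_pos (h : Cpt μ K) (h' : Cpt ν K) (h0 : μ {0} = 0) (h0' : ν {0} = 0)
    (hm : ∀ k : ℕ, 1 ≤ k → ∫ x, x ^ k ∂μ = ∫ x, x ^ k ∂ν) : μ = ν := by
  have i1 := h.fin
  have i2 := h'.fin
  have main : ∀ {m : Measure ℝ}, Cpt m K → Cpt (m.withDensity fun x => ENNReal.ofReal x) K ∧
      ∀ k : ℕ, ∫ x, x ^ k ∂(m.withDensity fun x => ENNReal.ofReal x) = ∫ x, x ^ (k + 1) ∂m := by
    intro m hm
    have := hm.fin
    have hi := hm.integrable continuous_id
    have hfin : IsFiniteMeasure (m.withDensity fun x => ENNReal.ofReal x) := by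
      refine isFiniteMeasure_withDensity ?_
      exact (Integrable.lintegral_lt_top hi).ne
    refine ⟨⟨hfin, hm.nonneg, withDensity_absolutelyContinuous _ _ hm.supp⟩, fun k => ?_⟩
    rw [integral_withDensity_eq_integral_toReal_smul (by fun_prop) (by simp)]
    refine integral_congr_ae ?_
    filter_upwards [hm.ae] with x hx
    rw [ENNReal.toReal_ofReal hx.1, smul_eq_mul, pow_succ']
  obtain ⟨a1, a2⟩ := main h
  obtain ⟨b1, b2⟩ := main h'
  have e := a1.ext b1 fun k => by rw [a2, b2, hm (k + 1) (by omega)]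
  -- recover
  have hrec : ∀ {m : Measure ℝ}, Cpt m K → m {0} = 0 →
      (m.withDensity fun x => ENNReal.ofReal x).withDensity (fun x => (ENNReal.ofReal x)⁻¹) = m := by
    intro m hm hm0
    have := hm.fin
    rw [← withDensity_mul _ (by fun_prop) (by fun_prop)]
    have : ((fun x : ℝ => ENNReal.ofReal x) * (fun x => (ENNReal.ofReal x)⁻¹)) =ᵐ[m] (fun _ => 1) := by
      have h3 : ∀ᵐ x ∂m, x ≠ 0 := by
        rw [ae_iff]
        simpa using hm0
      filter_upwards [hm.ae, h3] with x hx hx0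
      have : 0 < x := lt_of_le_of_ne hx.1 (Ne.symm hx0)
      exact ENNReal.mul_inv_cancel (by simpa using this) ENNReal.ofReal_ne_top
    rw [withDensity_congr_ae this]
    exact withDensity_one
  rw [← hrec h h0, ← hrec h' h0', e]

end Cpt

end Pool.Agent.U755.LT
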