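import Pool.Agent.U755.LT.Alg

/-!
# Project LT, jobs P5A and P5B: one degree
-/

set_option autoImplicit false

open scoped Matrix

noncomputable section

namespace Pool.Agent.U755.LT

open Pool.Agent.N496.LT Pool.Agent.TH630.Tor Pool.Agent.Helper993.FK

section
variable {G : Type} [Group G] (C : GCx G)

/-- the `a`-th cell of dimension `n` -/
def cell (n : ℕ) (a : Fin (C.toFree.rank n)) : C.ι := ((Fintype.equivFin {i : C.ι // C.deg i = n}).symm a).1

theorem cell_deg (n : ℕ) (a : Fin (C.toFree.rank n)) : C.deg (cell C n a) = n :=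
  ((Fintype.equivFin {i : C.ι // C.deg i = n}).symm a).2

theorem cell_inj (n : ℕ) : Function.Injective (cell C n) := fun _ _ h =>
  (Fintype.equivFin {i : C.ι // C.deg i = n}).symm.injective (Subtype.ext h)

theorem d_apply (n : ℕ) (a : Fin (C.toFree.rank (n + 1))) (b : Fin (C.toFree.rank n)) :
    C.toFree.d n a b = C.D (cell C (n + 1) a) (cell C n b) := rfl

theorem sum_cell (n : ℕ) {M : Type} [AddCommMonoid M] (f : C.ι → M) (h : ∀ k, C.deg k ≠ n → f k = 0) :
    ∑ a, f (cell C n a) = ∑ k, f k := by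
  rw [← sum_deg C.deg n f h]
  exact (Fintype.equivFin {i : C.ι // C.deg i = n}).symm.sum_comp fun k => f k.1

theorem sum_cell_ite (n : ℕ) {M : Type} [AddCommMonoid M] (f : C.ι → M) :
    ∑ a, f (cell C n a) = ∑ k, if C.deg k = n then f k else 0 := by
  rw [← sum_cell C n (fun k => if C.deg k = n then f k else 0) fun k hk => if_neg hk]
  exact Finset.sum_congr rfl fun a _ => (if_pos (cell_deg C n a)).symm

theorem lapM_eq (n : ℕ) : C.toFree.lapM n = (lap C).submatrix (cell C n) (cell C n) := by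
  have e2 : ∀ (n : ℕ) (a b : Fin (C.toFree.rank n)), (adjZ (C.toFree.d n) * C.toFree.d n) a b =
      (adj C.D * C.D) (cell C n a) (cell C n b) := by
    intro n a b
    rw [Matrix.mul_apply, Matrix.mul_apply]
    refine (sum_cell C (n + 1) (fun k => adj C.D (cell C n a) k * C.D k (cell C n b)) fun k hk => ?_)
    by_contra h
    apply hk
    have := C.D_deg k (cell C n b) fun h0 => h (by rw [h0, mul_zero])
    rw [this, cell_deg]
  cases n with
  | zero =>
    ext1 a b
    rw [FreeCx.lapM, e2, Matrix.submatrix_apply, lap, Matrix.add_apply]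
    rw [show (C.D * adj C.D) (cell C 0 a) (cell C 0 b) = 0 from ?_, zero_add]
    rw [Matrix.mul_apply]
    refine Finset.sum_eq_zero fun k _ => ?_
    have : C.D (cell C 0 a) k = 0 := by
      by_contra h
      have := C.D_deg _ _ h
      rw [cell_deg] at this
      omega
    rw [this, zero_mul]
  | succ n =>
    ext1 a b
    rw [FreeCx.lapM, Matrix.add_apply, e2, Matrix.submatrix_apply, lap, Matrix.add_apply, add_comm]
    congr 1
    rw [Matrix.mul_apply, Matrix.mul_apply]
    refine (sum_cell C n (fun k => C.D (cell C (n + 1) a) k * adj C.D k (cell C (n + 1) b)) fun k hk => ?_)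
    by_contra h
    apply hk
    have := C.D_deg (cell C (n + 1) a) k fun h0 => h (by rw [h0, zero_mul])
    rw [cell_deg] at this
    omega

theorem pow_submatrix {A : Matrix C.ι C.ι (MonoidAlgebra ℤ G)} (hA : BD C.deg A) (n k : ℕ) :
    (A.submatrix (cell C n) (cell C n)) ^ k = (A ^ k).submatrix (cell C n) (cell C n) := by
  induction k with
  | zero =>
    rw [pow_zero, pow_zero, Matrix.submatrix_one _ (cell_inj C n)]
  | succ k ih =>
    rw [pow_succ, ih, pow_succ]
    ext1 a b
    rw [Matrix.mul_apply, Matrix.submatrix_apply, Matrix.mul_apply]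
    refine (sum_cell C n (fun j => (A ^ k) (cell C n a) j * A j (cell C n b)) fun j hj => ?_)
    by_contra h
    apply hj
    have := hA j (cell C n b) fun h0 => h (by rw [h0, mul_zero])
    rw [this, cell_deg]

theorem toQ_pow {r : ℕ} (A : Matrix (Fin r) (Fin r) (MonoidAlgebra ℤ G)) (k : ℕ) :
    (A ^ k).map toQ = (A.map toQ) ^ k := by
  have : (toQ : MonoidAlgebra ℤ G → MonoidAlgebra ℚ G)
    = MonoidAlgebra.mapRingHom G (Int.castRingHom ℚ) := rfl
  rw [this, ← RingHom.mapMatrix_apply, ← RingHom.mapMatrix_apply, map_pow]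

theorem trc_lapM (n k : ℕ) : trc (((C.toFree.lapM n).map toQ) ^ k) = mom C n k := by
  rw [← toQ_pow, lapM_eq, pow_submatrix C (lap_BD C)]
  unfold trc mom
  have h1 : ∀ a : Fin (C.toFree.rank n), ((((((lap C ^ k).submatrix (cell C n) (cell C n)).map toQ) a a).coeff 1 : ℚ) : ℝ)
      = (fun i : C.ι => ((tau ((lap C ^ k) i i) : ℤ) : ℝ)) (cell C n a) := by
    intro a
    rw [Matrix.map_apply, toQ_coeff, Matrix.submatrix_apply]
    unfold tau
    push_cast
    rfl
  refine (Finset.sum_congr rfl fun a _ => h1 a).trans ?_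
  refine (sum_cell_ite C n (fun i : C.ι => ((tau ((lap C ^ k) i i) : ℤ) : ℝ))).trans ?_
  push_cast
  refine Finset.sum_congr rfl fun i _ => ?_
  split_ifs <;> simp

theorem mom_zero_of_gt (n k : ℕ) (h : ∀ i, C.deg i ≠ n) : mom C n k = 0 :=
  Finset.sum_eq_zero fun i _ => if_neg (h i)

end

section prod
variable {G H : Type} [Group G] [Group H]

/-- the first inclusion -/
def inl : MonoidAlgebra ℤ G →+* MonoidAlgebra ℤ (G × H) :=
  MonoidAlgebra.mapDomainRingHom ℤ (MonoidHom.inl G H)

/-- the second inclusion -/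
def inr : MonoidAlgebra ℤ H →+* MonoidAlgebra ℤ (G × H) :=
  MonoidAlgebra.mapDomainRingHom ℤ (MonoidHom.inr G H)

theorem inl_single (g : G) (r : ℤ) : (inl (MonoidAlgebra.single g r) : MonoidAlgebra ℤ (G × H)) =
    MonoidAlgebra.single (g, 1) r := MonoidAlgebra.mapDomain_single

theorem inr_single (g : H) (r : ℤ) : (inr (MonoidAlgebra.single g r) : MonoidAlgebra ℤ (G × H)) =
    MonoidAlgebra.single (1, g) r := MonoidAlgebra.mapDomain_single

theorem inl_inr_comm (a : MonoidAlgebra ℤ G) (b : MonoidAlgebra ℤ H) :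
    (inl a * inr b : MonoidAlgebra ℤ (G × H)) = inr b * inl a := comm_inl_inr a b

theorem iv_inl (a : MonoidAlgebra ℤ G) : iv (inl a : MonoidAlgebra ℤ (G × H)) = inl (iv a) := by
  induction a using MonoidAlgebra.induction_linear with
  | zero => rw [map_zero, iv_zero, iv_zero, map_zero]
  | add a a' h1 h2 => rw [map_add, iv_add, iv_add, map_add, h1, h2]
  | single g r => rw [inl_single, iv_single, iv_single, inl_single, Prod.inv_mk, inv_one]

theorem iv_inr (a : MonoidAlgebra ℤ H) : iv (inr a : MonoidAlgebra ℤ (G × H)) = inr (iv a) := by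
  induction a using MonoidAlgebra.induction_linear with
  | zero => rw [map_zero, iv_zero, iv_zero, map_zero]
  | add a a' h1 h2 => rw [map_add, iv_add, iv_add, map_add, h1, h2]
  | single g r => rw [inr_single, iv_single, iv_single, inr_single, Prod.inv_mk, inv_one]

theorem tau_inl_inr (a : MonoidAlgebra ℤ G) (b : MonoidAlgebra ℤ H) :
    tau (inl a * inr b : MonoidAlgebra ℤ (G × H)) = tau a * tau b := by
  classical
  induction a using MonoidAlgebra.induction_linear with
  | zero => rw [map_zero, zero_mul, tau_zero, tau_zero, zero_mul]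
  | add a a' h1 h2 => rw [map_add, add_mul, tau_add, tau_add, add_mul, h1, h2]
  | single g r =>
    induction b using MonoidAlgebra.induction_linear with
    | zero => rw [map_zero, mul_zero, tau_zero, tau_zero, mul_zero]
    | add b b' h1 h2 => rw [map_add, mul_add, tau_add, tau_add, mul_add, h1, h2]
    | single h s =>
      rw [inl_single, inr_single, MonoidAlgebra.single_mul_single, tau_single, tau_single, tau_single,
        Prod.mk_mul_mk, mul_one, one_mul]
      have he : ((g, h) : G × H) = 1 ↔ g = 1 ∧ h = 1 := Prod.mk_eq_one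
      by_cases h1 : g = 1
      · by_cases h2 : h = 1
        · rw [if_pos (he.2 ⟨h1, h2⟩), if_pos h1, if_pos h2]
        · rw [if_neg (fun h3 => h2 (he.1 h3).2), if_neg h2, mul_zero]
      · rw [if_neg (fun h3 => h1 (he.1 h3).1), if_neg h1, zero_mul]

variable {ι κ : Type}

/-- the Kronecker product -/
def kr (A : Matrix ι ι (MonoidAlgebra ℤ G)) (B : Matrix κ κ (MonoidAlgebra ℤ H)) :
    Matrix (ι × κ) (ι × κ) (MonoidAlgebra ℤ (G × H)) :=
  Matrix.of fun x y => inl (A x.1 y.1) * inr (B x.2 y.2)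

theorem kr_apply (A : Matrix ι ι (MonoidAlgebra ℤ G)) (B : Matrix κ κ (MonoidAlgebra ℤ H)) (x y : ι × κ) :
    kr A B x y = inl (A x.1 y.1) * inr (B x.2 y.2) := rfl

theorem kr_mul [Fintype ι] [Fintype κ] (A A' : Matrix ι ι (MonoidAlgebra ℤ G))
    (B B' : Matrix κ κ (MonoidAlgebra ℤ H)) : kr A B * kr A' B' = kr (A * A') (B * B') := by
  ext1 x y
  rw [Matrix.mul_apply, kr_apply, Matrix.mul_apply, Matrix.mul_apply, map_sum, map_sum,
    Finset.sum_mul_sum, Fintype.sum_prod_type]
  refine Finset.sum_congr rfl fun i _ => Finset.sum_congr rfl fun j _ => ?_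
  rw [kr_apply, kr_apply, map_mul, map_mul, mul_assoc, ← mul_assoc (inr (B x.2 j)), ← inl_inr_comm, mul_assoc,
    mul_assoc]

theorem kr_add_left (A A' : Matrix ι ι (MonoidAlgebra ℤ G)) (B : Matrix κ κ (MonoidAlgebra ℤ H)) :
    kr (A + A') B = kr A B + kr A' B := by
  ext1 x y
  rw [Matrix.add_apply, kr_apply, kr_apply, kr_apply, Matrix.add_apply, map_add, add_mul]

theorem kr_add_right (A : Matrix ι ι (MonoidAlgebra ℤ G)) (B B' : Matrix κ κ (MonoidAlgebra ℤ H)) :
    kr A (B + B') = kr A B + kr A B' := by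
  ext1 x y
  rw [Matrix.add_apply, kr_apply, kr_apply, kr_apply, Matrix.add_apply, map_add, mul_add]

theorem kr_neg_left (A : Matrix ι ι (MonoidAlgebra ℤ G)) (B : Matrix κ κ (MonoidAlgebra ℤ H)) :
    kr (-A) B = - kr A B := by
  ext1 x y
  rw [Matrix.neg_apply, kr_apply, kr_apply, Matrix.neg_apply, map_neg, neg_mul]

theorem kr_one [DecidableEq ι] [DecidableEq κ] : kr (1 : Matrix ι ι (MonoidAlgebra ℤ G))
    (1 : Matrix κ κ (MonoidAlgebra ℤ H)) = 1 := by
  ext1 x y
  rw [kr_apply]
  by_cases h1 : x.1 = y.1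
  · by_cases h2 : x.2 = y.2
    · have : x = y := Prod.ext h1 h2
      subst this
      rw [Matrix.one_apply_eq, Matrix.one_apply_eq, Matrix.one_apply_eq, map_one, map_one, mul_one]
    · have h3 : x ≠ y := fun h => h2 (congrArg Prod.snd h)
      rw [Matrix.one_apply_ne h2, Matrix.one_apply_ne h3, map_zero, mul_zero]
  · have h3 : x ≠ y := fun h => h1 (congrArg Prod.fst h)
    rw [Matrix.one_apply_ne h1, Matrix.one_apply_ne h3, map_zero, zero_mul]

theorem kr_adj (A : Matrix ι ι (MonoidAlgebra ℤ G)) (B : Matrix κ κ (MonoidAlgebra ℤ H)) :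
    adj (kr A B) = kr (adj A) (adj B) := by
  ext1 x y
  rw [adj_apply, kr_apply, kr_apply, iv_mul, iv_inl, iv_inr, adj_apply, adj_apply, inl_inr_comm]

theorem kr_pow [Fintype ι] [Fintype κ] [DecidableEq ι] [DecidableEq κ] (A : Matrix ι ι (MonoidAlgebra ℤ G))
    (B : Matrix κ κ (MonoidAlgebra ℤ H)) (k : ℕ) : kr A B ^ k = kr (A ^ k) (B ^ k) := by
  induction k with
  | zero => rw [pow_zero, pow_zero, pow_zero, kr_one]
  | succ k ih => rw [pow_succ, ih, kr_mul, ← pow_succ, ← pow_succ]

variable (C : GCx G) (E : GCx H)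

theorem eps_sq {ι : Type} [Fintype ι] [DecidableEq ι] (deg : ι → ℕ) :
    (eps deg * eps deg : Matrix ι ι (MonoidAlgebra ℤ G)) = 1 := by
  unfold eps
  rw [Matrix.diagonal_mul_diagonal, ← Matrix.diagonal_one]
  congr 1
  funext i
  rw [← pow_add, ← two_mul, pow_mul, neg_one_sq, one_pow]

theorem eps_adj {ι : Type} [DecidableEq ι] (deg : ι → ℕ) :
    adj (eps deg : Matrix ι ι (MonoidAlgebra ℤ G)) = eps deg := by
  ext1 i j
  rw [adj_apply]
  unfold eps
  by_cases h : i = j
  · subst h
    rw [Matrix.diagonal_apply_eq]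
    rcases neg_one_pow_eq_or (MonoidAlgebra ℤ G) (deg i) with h | h
    · rw [h, iv_one]
    · rw [h, iv_neg, iv_one]
  · rw [Matrix.diagonal_apply_ne _ h, Matrix.diagonal_apply_ne _ (Ne.symm h), iv_zero]

theorem one_adj {ι : Type} [DecidableEq ι] : adj (1 : Matrix ι ι (MonoidAlgebra ℤ G)) = 1 := by
  ext1 i j
  rw [adj_apply]
  by_cases h : i = j
  · subst h
    rw [Matrix.one_apply_eq, iv_one]
  · rw [Matrix.one_apply_ne h, Matrix.one_apply_ne (Ne.symm h), iv_zero]

/-- the boundary of the product -/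
def pD : Matrix (C.ι × E.ι) (C.ι × E.ι) (MonoidAlgebra ℤ (G × H)) := kr C.D 1 + kr (eps C.deg) E.D

/-- the Laplacian of the product -/
def pL : Matrix (C.ι × E.ι) (C.ι × E.ι) (MonoidAlgebra ℤ (G × H)) := kr (lap C) 1 + kr 1 (lap E)

theorem prod_D : (C.prod E).D = pD C E := by
  have h : ∀ x y : C.ι × E.ι, (C.prod E).D x y = pD C E x y := by
    intro x y
    unfold pD
    rw [Matrix.add_apply, kr_apply, kr_apply]
    show (if x.2 = y.2 then (inl (C.D x.1 y.1) : MonoidAlgebra ℤ (G × H)) else 0) +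
      (if x.1 = y.1 then (-1) ^ C.deg x.1 * (inr (E.D x.2 y.2) : MonoidAlgebra ℤ (G × H)) else 0) = _
    congr 1
    · by_cases h : x.2 = y.2
      · rw [if_pos h, h, Matrix.one_apply_eq, map_one, mul_one]
      · rw [if_neg h, Matrix.one_apply_ne h, map_zero, mul_zero]
    · unfold eps
      by_cases h : x.1 = y.1
      · rw [if_pos h, h, Matrix.diagonal_apply_eq, map_pow, map_neg, map_one]
      · rw [if_neg h, Matrix.diagonal_apply_ne _ h, map_zero, zero_mul]
  funext x y
  exact h x y

theorem pD_lap : pD C E * adj (pD C E) + adj (pD C E) * pD C E = pL C E := by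
  have e1 := D_anti C
  have e2 := adjD_anti C
  have hA : adj (pD C E) = kr (adj C.D) 1 + kr (eps C.deg) (adj E.D) := by
    unfold pD
    rw [adj_add, kr_adj, kr_adj, one_adj, eps_adj]
  rw [hA]
  unfold pD pL
  rw [Matrix.add_mul, Matrix.add_mul, Matrix.mul_add, Matrix.mul_add, Matrix.mul_add, Matrix.mul_add,
    kr_mul, kr_mul, kr_mul, kr_mul, kr_mul, kr_mul, kr_mul, kr_mul, e1, e2, eps_sq, kr_neg_left, kr_neg_left]
  unfold lap
  rw [kr_add_left, kr_add_right]
  simp only [Matrix.mul_one, Matrix.one_mul]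
  abel

theorem mom_prod_eq (n k : ℕ) : mom (C.prod E) n k =
    ∑ x : C.ι × E.ι, if C.deg x.1 + E.deg x.2 = n then tau ((pL C E ^ k) x x) else 0 := by
  have h1 : mom (C.prod E) n k = ∑ x : C.ι × E.ι, if C.deg x.1 + E.deg x.2 = n then
      tau (((pD C E * adj (pD C E) + adj (pD C E) * pD C E) ^ k) x x) else 0 := by
    rw [← prod_D]
    rfl
  rw [h1, pD_lap]

theorem pL_pow (k : ℕ) : pL C E ^ k = ∑ m ∈ Finset.range (k + 1), (k.choose m : ℤ) •
    kr (lap C ^ m) (lap E ^ (k - m)) := by
  have hc : Commute (kr (lap C) (1 : Matrix E.ι E.ι (MonoidAlgebra ℤ H))) (kr 1 (lap E)) := by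
    show _ * _ = _ * _
    rw [kr_mul, kr_mul, Matrix.mul_one, Matrix.one_mul, Matrix.mul_one, Matrix.one_mul]
  unfold pL
  rw [hc.add_pow]
  refine Finset.sum_congr rfl fun m _ => ?_
  rw [kr_pow, kr_pow, one_pow, one_pow, kr_mul, Matrix.mul_one, Matrix.one_mul, ← nsmul_eq_mul', natCast_zsmul]

theorem tau_zsmul {G : Type} [Group G] (m : ℕ) (a : MonoidAlgebra ℤ G) : tau ((m : ℤ) • a) = m * tau a := by
  rw [natCast_zsmul]
  induction m with
  | zero => rw [zero_smul, tau_zero, Nat.cast_zero, zero_mul]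
  | succ m ih => rw [succ_nsmul, tau_add, ih]; push_cast; ring

/-- The moments of the product. -/
theorem mom_prod (n k : ℕ) : mom (C.prod E) n k = ∑ p ∈ Finset.HasAntidiagonal.antidiagonal n,
    ∑ m ∈ Finset.range (k + 1), (k.choose m : ℤ) * (mom C p.1 m * mom E p.2 (k - m)) := by
  rw [mom_prod_eq, Fintype.sum_prod_type]
  have h1 : ∀ (i : C.ι) (j : E.ι), tau ((pL C E ^ k) (i, j) (i, j)) =
      ∑ m ∈ Finset.range (k + 1), (k.choose m : ℤ) * (tau ((lap C ^ m) i i) * tau ((lap E ^ (k - m)) j j)) := by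
    intro i j
    rw [pL_pow, Matrix.sum_apply, tau_sum]
    refine Finset.sum_congr rfl fun m _ => ?_
    rw [Matrix.smul_apply, tau_zsmul, kr_apply, tau_inl_inr]
  simp only [h1]
  have h2 : ∀ (i : C.ι) (j : E.ι), (if C.deg i + E.deg j = n then
      ∑ m ∈ Finset.range (k + 1), (k.choose m : ℤ) * (tau ((lap C ^ m) i i) * tau ((lap E ^ (k - m)) j j)) else 0) =
      ∑ p ∈ Finset.HasAntidiagonal.antidiagonal n, ∑ m ∈ Finset.range (k + 1), (k.choose m : ℤ) *
        ((if C.deg i = p.1 then tau ((lap C ^ m) i i) else 0) *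
          (if E.deg j = p.2 then tau ((lap E ^ (k - m)) j j) else 0)) := by
    intro i j
    by_cases h : C.deg i + E.deg j = n
    · rw [if_pos h, Finset.sum_eq_single (C.deg i, E.deg j)]
      · refine Finset.sum_congr rfl fun m _ => ?_
        rw [if_pos rfl, if_pos rfl]
      · intro p _ hp
        refine Finset.sum_eq_zero fun m _ => ?_
        by_cases h1 : C.deg i = p.1
        · by_cases h2 : E.deg j = p.2
          · exact absurd (Prod.ext h1.symm h2.symm) hp
          · rw [if_neg h2, mul_zero, mul_zero]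
        · rw [if_neg h1, zero_mul, mul_zero]
      · intro h3
        exact absurd (Finset.HasAntidiagonal.mem_antidiagonal.2 h) h3
    · rw [if_neg h]
      symm
      refine Finset.sum_eq_zero fun p hp => Finset.sum_eq_zero fun m _ => ?_
      by_cases h1 : C.deg i = p.1
      · by_cases h2 : E.deg j = p.2
        · exfalso
          apply h
          rw [h1, h2]
          exact Finset.HasAntidiagonal.mem_antidiagonal.1 hp
        · rw [if_neg h2, mul_zero, mul_zero]
      · rw [if_neg h1, zero_mul, mul_zero]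
  simp only [h2]
  have h3 : ∀ (p : ℕ × ℕ) (m : ℕ), (k.choose m : ℤ) * (mom C p.1 m * mom E p.2 (k - m)) =
      ∑ i, ∑ j, (k.choose m : ℤ) * ((if C.deg i = p.1 then tau ((lap C ^ m) i i) else 0) *
          (if E.deg j = p.2 then tau ((lap E ^ (k - m)) j j) else 0)) := by
    intro p m
    unfold mom
    rw [Finset.sum_mul_sum, Finset.mul_sum]
    exact Finset.sum_congr rfl fun i _ => Finset.mul_sum _ _ _
  simp only [h3]
  rw [Finset.sum_congr rfl fun i _ => Finset.sum_comm]
  rw [Finset.sum_comm]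
  refine Finset.sum_congr rfl fun p _ => ?_
  rw [Finset.sum_congr rfl fun i _ => Finset.sum_comm]
  rw [Finset.sum_comm]

end prod

end Pool.Agent.U755.LT
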