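import Pool.Agent.U755.LT.Spec
import Pool.Agent.U755.LT.Blk
import Pool.Agent.N496.LT.Main

/-!
# Project LT, jobs P5A and P5B
-/

set_option autoImplicit false

open scoped InnerProductSpace Topology MeasureTheory

noncomputable section

namespace Pool.Agent.U755.LT

open MeasureTheory Pool.Agent.N496.LT Pool.Agent.TH630.Tor Pool.Agent.Helper993.FK Pool.Agent.Helper993.Delta

theorem lap_nonneg {G : Type} [Group G] (C : FreeCx G) (n : ℕ) : 0 ≤ C.laplacian n := by
  have h1 : ∀ {H K : Type} [NormedAddCommGroup H] [InnerProductSpace ℂ H] [CompleteSpace H]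
      [NormedAddCommGroup K] [InnerProductSpace ℂ K] [CompleteSpace K] (B : K →L[ℂ] H),
      0 ≤ B ∘L B.adjoint := by
    intro H K _ _ _ _ _ _ B
    have := adjoint_comp_nonneg B.adjoint
    rwa [ContinuousLinearMap.adjoint_adjoint] at this
  cases n with
  | zero => exact h1 _
  | succ n => exact add_nonneg (h1 _) (adjoint_comp_nonneg _)

section
variable {G : Type} [Group G] (C : GCx G)

/-- the spectral measure of the Laplacian -/
def mu (n : ℕ) : Measure ℝ := spectralMeasure unitVec (C.toFree.laplacian n)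

theorem mu_cpt' (n : ℕ) : Cpt (mu C n) ‖C.toFree.laplacian n‖ := cpt_spec _ _ (lap_nonneg _ n) le_rfl

instance mu_fin (n : ℕ) : IsFiniteMeasure (mu C n) := (mu_cpt' C n).fin

theorem mu_mom (n k : ℕ) : ∫ x, x ^ k ∂(mu C n) = mom C n k := by
  have h := lap_nonneg C.toFree n
  unfold mu
  rw [C.toFree.laplacian_eq] at h ⊢
  rw [mom_spec _ h, trc_lapM]

theorem rank_zero (n : ℕ) (h : C.toFree.dim < n) : C.toFree.rank n = 0 := C.toFree.rank_eq_zero n h

theorem mu_zero (n : ℕ) (h : C.toFree.rank n = 0) : mu C n = 0 := by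
  have h1 : ∫ _x, (1 : ℝ) ∂(mu C n) = 0 := by
    unfold mu
    rw [int_spec _ _ (lap_nonneg _ n) continuous_const]
    unfold traceVal
    apply Finset.sum_eq_zero
    intro i _
    exact absurd i.2 (by omega)
  rw [integral_const, smul_eq_mul, mul_one, measureReal_eq_zero_iff, Measure.measure_univ_eq_zero] at h1
  exact h1

/-- a common bound for the spectra -/
def bd : ℝ := ∑ n ∈ Finset.range (C.toFree.dim + 1), ‖C.toFree.laplacian n‖

theorem bd_nonneg : 0 ≤ bd C := Finset.sum_nonneg fun _ _ => norm_nonneg _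

theorem mu_cpt (n : ℕ) : Cpt (mu C n) (bd C) := by
  by_cases h : n < C.toFree.dim + 1
  · refine (mu_cpt' C n).mono ?_
    exact Finset.single_le_sum (f := fun n => ‖C.toFree.laplacian n‖) (fun _ _ => norm_nonneg _)
      (Finset.mem_range.2 h)
  · rw [mu_zero C n (rank_zero C n (by omega))]
    exact Cpt.zero (bd_nonneg C)

theorem acyclic_iff : C.toFree.DetL2Acyclic ↔ ∀ n, Cpt.Good (mu C n) := by
  refine forall_congr' fun n => ?_
  have hn := lap_nonneg C.toFree n
  have hb : ∀ i, ‖(unitVec i : L2Pow G (C.toFree.rank n))‖ ≤ 1 := fun i => (norm_unitVec i).le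
  constructor
  · rintro ⟨h1, h2⟩
    have hinj : ∀ v, C.toFree.laplacian n v = 0 → v = 0 := by
      unfold FreeCx.l2betti at h1
      rw [C.toFree.laplacian_eq] at h1 ⊢
      exact inj_of_dimKer _ h1
    have ha := atom_of_inj unitVec _ hb hn hinj
    refine ⟨ha, ?_⟩
    exact (log_sq unitVec _ hn ha).1.1 ((detOf_pos_iff _ _).1 h2)
  · rintro ⟨ha, hl⟩
    refine ⟨?_, (detOf_pos_iff _ _).2 ((log_sq unitVec _ hn ha).1.2 hl)⟩
    refine FreeCx.dimKer_of_inj _ ?_
    unfold mu at ha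
    rw [C.toFree.laplacian_eq] at ha hn ⊢
    exact inj_of_atom _ hn ha

theorem log_fkDet (n : ℕ) (h : Cpt.Good (mu C n)) :
    Real.log (fkDet (C.toFree.laplacian n)) = ∫ x, Real.log x ∂(mu C n) := by
  have hn := lap_nonneg C.toFree n
  have h1 := log_sq unitVec _ hn h.atom
  unfold fkDet detOf
  rw [if_pos (h1.1.2 h.log), Real.log_exp, h1.2]
  unfold mu
  ring

/-- the sum of the spectral measures in even degrees equals the sum in odd degrees -/
theorem even_odd (hC : ∀ n, Cpt.Good (mu C n)) (N : ℕ) (hN : C.toFree.dim < N) :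
    ∑ n ∈ (Finset.range N).filter Even, mu C n = ∑ n ∈ (Finset.range N).filter (fun n => ¬ Even n), mu C n := by
  have hdeg : ∀ i, C.deg i < N := by
    intro i
    refine lt_of_le_of_lt ?_ hN
    exact Finset.le_sup (f := C.deg) (Finset.mem_univ i)
  refine Cpt.ext_pos (Cpt.sum _ _ (bd_nonneg C) fun n _ => mu_cpt C n)
    (Cpt.sum _ _ (bd_nonneg C) fun n _ => mu_cpt C n) (Cpt.good_sum _ _ fun n _ => hC n).atom
    (Cpt.good_sum _ _ fun n _ => hC n).atom fun k hk => ?_
  obtain ⟨k, rfl⟩ : ∃ k', k = k' + 1 := ⟨k - 1, by omega⟩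
  rw [integral_finsetSum_measure fun n _ => (mu_cpt C n).integrable (continuous_pow _),
    integral_finsetSum_measure fun n _ => (mu_cpt C n).integrable (continuous_pow _)]
  simp only [mu_mom]
  have h1 := mckean_singer C N hdeg k
  have h2 := congrArg (fun z : ℤ => (z : ℝ)) h1
  push_cast at h2
  rw [← Finset.sum_filter_add_sum_filter_not (Finset.range N) Even] at h2
  have h3 : ∑ n ∈ (Finset.range N).filter Even, (-1 : ℝ) ^ n * (mom C n (k + 1) : ℝ) =
      ∑ n ∈ (Finset.range N).filter Even, (mom C n (k + 1) : ℝ) := by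
    refine Finset.sum_congr rfl fun n hn => ?_
    rw [(Finset.mem_filter.1 hn).2.neg_one_pow, one_mul]
  have h4 : ∑ n ∈ (Finset.range N).filter (fun n => ¬ Even n), (-1 : ℝ) ^ n * (mom C n (k + 1) : ℝ) =
      - ∑ n ∈ (Finset.range N).filter (fun n => ¬ Even n), (mom C n (k + 1) : ℝ) := by
    rw [← Finset.sum_neg_distrib]
    refine Finset.sum_congr rfl fun n hn => ?_
    rw [(Nat.not_even_iff_odd.1 (Finset.mem_filter.1 hn).2).neg_one_pow, neg_one_mul]
  rw [h3, h4] at h2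
  linarith

theorem log_conv_sum {ν : Measure ℝ} {L : ℝ} (hν : Cpt ν L) (hC : ∀ n, Cpt.Good (mu C n)) (s : Finset ℕ) :
    ∫ x, Real.log x ∂((∑ n ∈ s, mu C n) ∗ ν) = ∑ n ∈ s, ∫ x, Real.log x ∂(mu C n ∗ ν) := by
  have i1 := hν.fin
  induction s using Finset.induction_on with
  | empty => rw [Finset.sum_empty, Finset.sum_empty, Measure.zero_conv, integral_zero_measure]
  | insert a s ha ih =>
    rw [Finset.sum_insert ha, Finset.sum_insert ha, ← ih]
    have i2 : IsFiniteMeasure (∑ n ∈ s, mu C n) := (Cpt.sum s _ (bd_nonneg C) fun n _ => mu_cpt C n).fin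
    rw [Measure.add_conv]
    exact integral_add_measure ((mu_cpt C a).conv_good hν (hC a)).log
      ((Cpt.sum s _ (bd_nonneg C) fun n _ => mu_cpt C n).conv_good hν (Cpt.good_sum _ _ fun n _ => hC n)).log

theorem alt_zero {ν : Measure ℝ} {L : ℝ} (hν : Cpt ν L) (hC : ∀ n, Cpt.Good (mu C n)) (N : ℕ)
    (hN : C.toFree.dim < N) : ∑ n ∈ Finset.range N, (-1 : ℝ) ^ n * ∫ x, Real.log x ∂(mu C n ∗ ν) = 0 := by
  rw [← Finset.sum_filter_add_sum_filter_not (Finset.range N) Even]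
  have h3 : ∑ n ∈ (Finset.range N).filter Even, (-1 : ℝ) ^ n * ∫ x, Real.log x ∂(mu C n ∗ ν) =
      ∑ n ∈ (Finset.range N).filter Even, ∫ x, Real.log x ∂(mu C n ∗ ν) := by
    refine Finset.sum_congr rfl fun n hn => ?_
    rw [(Finset.mem_filter.1 hn).2.neg_one_pow, one_mul]
  have h4 : ∑ n ∈ (Finset.range N).filter (fun n => ¬ Even n), (-1 : ℝ) ^ n * ∫ x, Real.log x ∂(mu C n ∗ ν) =
      - ∑ n ∈ (Finset.range N).filter (fun n => ¬ Even n), ∫ x, Real.log x ∂(mu C n ∗ ν) := by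
    rw [← Finset.sum_neg_distrib]
    refine Finset.sum_congr rfl fun n hn => ?_
    rw [(Nat.not_even_iff_odd.1 (Finset.mem_filter.1 hn).2).neg_one_pow, neg_one_mul]
  rw [h3, h4, ← log_conv_sum C hν hC, ← log_conv_sum C hν hC, even_odd C hC N hN, add_neg_cancel]

end

section prod
variable {G H : Type} [Group G] [Group H] (C : GCx G) (E : GCx H)

/-- The spectral measures of the product. -/
theorem mu_prod (n : ℕ) : mu (C.prod E) n =
    ∑ p ∈ Finset.HasAntidiagonal.antidiagonal n, mu C p.1 ∗ mu E p.2 := by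
  have hc : ∀ p : ℕ × ℕ, Cpt (mu C p.1 ∗ mu E p.2) (bd C + bd E) := fun p => (mu_cpt C p.1).conv (mu_cpt E p.2)
  have h0 : 0 ≤ bd C + bd E := add_nonneg (bd_nonneg C) (bd_nonneg E)
  refine Cpt.ext (K := bd (C.prod E) + (bd C + bd E)) ((mu_cpt _ n).mono (by linarith))
    ((Cpt.sum _ _ h0 fun p _ => hc p).mono (by linarith [bd_nonneg (C.prod E)])) fun k => ?_
  rw [mu_mom, mom_prod, integral_finsetSum_measure fun p _ => (hc p).integrable (continuous_pow _)]
  push_cast
  refine Finset.sum_congr rfl fun p _ => ?_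
  rw [(mu_cpt C p.1).conv_mom (mu_cpt E p.2)]
  refine Finset.sum_congr rfl fun m _ => ?_
  rw [mu_mom, mu_mom]

theorem good_prod (hC : ∀ n, Cpt.Good (mu C n)) (n : ℕ) : Cpt.Good (mu (C.prod E) n) := by
  rw [mu_prod]
  exact Cpt.good_sum _ _ fun p _ => (mu_cpt C p.1).conv_good (mu_cpt E p.2) (hC p.1)

theorem sum_anti (M : ℕ) (f : ℕ → ℕ → ℝ) (hf : ∀ i j, M ≤ i + j → f i j = 0) :
    ∑ n ∈ Finset.range M, ∑ p ∈ Finset.HasAntidiagonal.antidiagonal n, f p.1 p.2 =
      ∑ i ∈ Finset.range M, ∑ j ∈ Finset.range M, f i j := by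
  have h1 : ∀ n ∈ Finset.range M, ∑ p ∈ Finset.HasAntidiagonal.antidiagonal n, f p.1 p.2 =
      ∑ i ∈ Finset.range M, ∑ j ∈ Finset.range M, if i + j = n then f i j else 0 := by
    intro n hn
    rw [Finset.mem_range] at hn
    rw [← Finset.sum_product', ← Finset.sum_filter]
    refine Finset.sum_congr ?_ fun _ _ => rfl
    ext p
    simp only [Finset.HasAntidiagonal.mem_antidiagonal, Finset.mem_filter, Finset.mem_product, Finset.mem_range]
    omega
  rw [Finset.sum_congr rfl h1, Finset.sum_comm]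
  refine Finset.sum_congr rfl fun i _ => ?_
  rw [Finset.sum_comm]
  refine Finset.sum_congr rfl fun j _ => ?_
  rw [Finset.sum_ite_eq]
  split_ifs with h
  · rfl
  · rw [Finset.mem_range, not_lt] at h
    exact (hf i j h).symm

end prod

/-- the logarithmic integrals -/
def JJ {G H : Type} [Group G] [Group H] (C : GCx G) (E : GCx H) (i j : ℕ) : ℝ :=
  ∫ x, Real.log x ∂(mu C i ∗ mu E j)

theorem JJ_comm {G H : Type} [Group G] [Group H] (C : GCx G) (E : GCx H) (i j : ℕ) :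
    JJ C E i j = JJ E C j i := by
  unfold JJ
  rw [Measure.conv_comm]

theorem JJ_zero {G H : Type} [Group G] [Group H] (C : GCx G) (E : GCx H) (i j : ℕ) (hi : C.toFree.dim < i) :
    JJ C E i j = 0 := by
  unfold JJ
  rw [mu_zero C i (rank_zero C i hi), Measure.zero_conv, integral_zero_measure]

theorem JJ_alt {G H : Type} [Group G] [Group H] (C : GCx G) (E : GCx H) (hC : ∀ n, Cpt.Good (mu C n)) (N : ℕ)
    (hN : C.toFree.dim < N) (j : ℕ) : ∑ n ∈ Finset.range N, (-1 : ℝ) ^ n * JJ C E n j = 0 :=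
  alt_zero C (mu_cpt E j) hC N hN

theorem log_prod {G H : Type} [Group G] [Group H] (C : GCx G) (E : GCx H) (hC : ∀ n, Cpt.Good (mu C n)) (n : ℕ) :
    ∫ x, Real.log x ∂(mu (C.prod E) n) = ∑ p ∈ Finset.HasAntidiagonal.antidiagonal n, JJ C E p.1 p.2 := by
  have h1 : ∀ p : ℕ × ℕ, Integrable Real.log (mu C p.1 ∗ mu E p.2) := fun p =>
    ((mu_cpt C p.1).conv_good (mu_cpt E p.2) (hC p.1)).log
  rw [mu_prod]
  exact integral_finsetSum_measure (μ := fun p : ℕ × ℕ => mu C p.1 ∗ mu E p.2) fun p _ => h1 p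

theorem p5A : P5A := by
  intro G H _ _ C E _ _ hC
  rw [acyclic_iff] at hC ⊢
  exact good_prod C E hC

theorem sum_zero (M : ℕ) (J : ℕ → ℕ → ℝ) (h3 : ∀ j, ∑ i ∈ Finset.range M, (-1 : ℝ) ^ i * J i j = 0)
    (h4 : ∀ i, ∑ j ∈ Finset.range M, (-1 : ℝ) ^ j * J i j = 0) :
    ∑ i ∈ Finset.range M, ∑ j ∈ Finset.range M, (-1 : ℝ) ^ (i + j) * ((i : ℝ) + j) * J i j = 0 := by
  have h6 : ∑ i ∈ Finset.range M, ∑ j ∈ Finset.range M, (-1 : ℝ) ^ (i + j) * ((i : ℝ) + j) * J i j =
      ∑ i ∈ Finset.range M, (-1 : ℝ) ^ i * i * ∑ j ∈ Finset.range M, (-1 : ℝ) ^ j * J i j +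
      ∑ j ∈ Finset.range M, (-1 : ℝ) ^ j * j * ∑ i ∈ Finset.range M, (-1 : ℝ) ^ i * J i j := by
    simp only [Finset.mul_sum]
    rw [Finset.sum_comm (s := Finset.range M) (t := Finset.range M)
      (f := fun j i => (-1 : ℝ) ^ j * (j : ℝ) * ((-1 : ℝ) ^ i * J i j)), ← Finset.sum_add_distrib]
    refine Finset.sum_congr rfl fun i _ => ?_
    rw [← Finset.sum_add_distrib]
    refine Finset.sum_congr rfl fun j _ => ?_
    rw [pow_add]
    ring
  rw [h6]
  simp only [h3, h4, mul_zero, Finset.sum_const_zero, add_zero]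

theorem torsion_aux (P : ℕ → ℝ) (J : ℕ → ℕ → ℝ) (dC dE dP : ℕ)
    (hP : ∀ n, P n = ∑ p ∈ Finset.HasAntidiagonal.antidiagonal n, J p.1 p.2)
    (zP : ∀ n, dP < n → P n = 0) (z1 : ∀ i j, dC < i → J i j = 0) (z2 : ∀ i j, dE < j → J i j = 0)
    (a1 : ∀ N, dC < N → ∀ j, ∑ i ∈ Finset.range N, (-1 : ℝ) ^ i * J i j = 0)
    (a2 : ∀ N, dE < N → ∀ i, ∑ j ∈ Finset.range N, (-1 : ℝ) ^ j * J i j = 0) :
    ∑ n ∈ Finset.range (dP + 1), (-1 : ℝ) ^ n * n * P n = 0 := by
  obtain ⟨M, hM⟩ : ∃ M, M = dC + dE + dP + 1 := ⟨_, rfl⟩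
  have h1 : ∑ n ∈ Finset.range (dP + 1), (-1 : ℝ) ^ n * n * P n =
      ∑ n ∈ Finset.range M, (-1 : ℝ) ^ n * n * P n := by
    refine Finset.sum_subset (Finset.range_mono (by omega)) fun n _ hn => ?_
    rw [Finset.mem_range, not_lt] at hn
    rw [zP n (by omega), mul_zero]
  have h2 : ∑ n ∈ Finset.range M, (-1 : ℝ) ^ n * n * P n =
      ∑ n ∈ Finset.range M, ∑ p ∈ Finset.HasAntidiagonal.antidiagonal n,
        (-1 : ℝ) ^ (p.1 + p.2) * ((p.1 : ℝ) + p.2) * J p.1 p.2 := by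
    refine Finset.sum_congr rfl fun n _ => ?_
    rw [hP, Finset.mul_sum]
    refine Finset.sum_congr rfl fun p hp => ?_
    rw [Finset.HasAntidiagonal.mem_antidiagonal.1 hp, ← Nat.cast_add,
      Finset.HasAntidiagonal.mem_antidiagonal.1 hp]
  rw [h1, h2, sum_anti M (fun i j => (-1 : ℝ) ^ (i + j) * ((i : ℝ) + j) * J i j) (fun i j hij => by
    have : J i j = 0 := by
      by_cases hi : dC < i
      · exact z1 i j hi
      · exact z2 i j (by omega)
    rw [this, mul_zero])]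
  exact sum_zero M J (a1 M (by omega)) (a2 M (by omega))

theorem p5B : P5B := by
  intro G H _ _ C E hC hE hP
  rw [acyclic_iff] at hC hE hP
  have h := torsion_aux (fun n => ∫ x, Real.log x ∂(mu (C.prod E) n)) (JJ C E) C.toFree.dim E.toFree.dim
    (C.prod E).toFree.dim (log_prod C E hC)
    (fun n hn => by
      show ∫ x, Real.log x ∂(mu (C.prod E) n) = 0
      rw [mu_zero _ n (rank_zero _ n hn), integral_zero_measure])
    (fun i j hi => JJ_zero C E i j hi)
    (fun i j hj => by rw [JJ_comm]; exact JJ_zero E C j i hj)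
    (fun N hN j => JJ_alt C E hC N hN j)
    (fun N hN i => by
      simp only [JJ_comm C E]
      exact JJ_alt E C hE N hN i)
  unfold FreeCx.l2torsion
  have h1 : ∑ n ∈ Finset.range ((C.prod E).toFree.dim + 1), (-1 : ℝ) ^ n * n *
        Real.log (fkDet ((C.prod E).toFree.laplacian n)) = 0 := by
    refine Eq.trans (Finset.sum_congr rfl fun n _ => ?_) h
    rw [log_fkDet _ _ (hP n)]
  rw [h1, mul_zero]

end Pool.Agent.U755.LT
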