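import Pool.Agent.U755.LT.An

/-!
# Project LT, jobs P5A and P5B: spectral measures
-/

set_option autoImplicit false

open scoped InnerProductSpace Topology CompactlySupported MeasureTheory

noncomputable section

namespace Pool.Agent.U755.LT

open MeasureTheory Polynomial Pool.Agent.Helper993.FK Pool.Agent.Helper993.Delta

/-- the distance to `[0, K]` -/
def outF (K x : ℝ) : ℝ := max (-x) 0 + max (x - K) 0

theorem outF_continuous (K : ℝ) : Continuous (outF K) := by
  unfold outF
  fun_prop

theorem outF_nonneg (K x : ℝ) : 0 ≤ outF K x := add_nonneg (le_max_right _ _) (le_max_right _ _)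

theorem outF_eq_zero {K x : ℝ} (h : x ∈ Set.Icc 0 K) : outF K x = 0 := by
  unfold outF
  rw [max_eq_right (by linarith [h.1]), max_eq_right (by linarith [h.2]), add_zero]

theorem mem_of_outF {K x : ℝ} (h : outF K x = 0) : x ∈ Set.Icc 0 K := by
  unfold outF at h
  have h1 := le_max_right (-x) 0
  have h2 := le_max_right (x - K) 0
  have h3 := le_max_left (-x) 0
  have h4 := le_max_left (x - K) 0
  constructor <;> linarith

/-- cut off a continuous function -/
def cc (f : ℝ → ℝ) (hf : Continuous f) (n : ℕ) : C_c(ℝ, ℝ) where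
  toFun x := f x * cut n x
  continuous_toFun := hf.mul (cut_continuous n)
  hasCompactSupport' := by
    apply HasCompactSupport.intro (isCompact_Icc (a := -((n : ℝ) + 1)) (b := (n : ℝ) + 1))
    intro x hx
    have : (n : ℝ) + 1 ≤ |x| := by
      by_contra hcon
      push Not at hcon
      rw [abs_lt] at hcon
      exact hx ⟨hcon.1.le, hcon.2.le⟩
    rw [cut_eq_zero this, mul_zero]

theorem cc_apply (f : ℝ → ℝ) (hf : Continuous f) (n : ℕ) (x : ℝ) : cc f hf n x = f x * cut n x := rfl

section abs
variable {H : Type} [NormedAddCommGroup H] [InnerProductSpace ℂ H] [CompleteSpace H] {r : ℕ}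
  (e : Fin r → H) (T : H →L[ℂ] H)

instance regular_spec : (spectralMeasure e T).Regular := by
  unfold spectralMeasure
  infer_instance

theorem cc_integral (f : ℝ → ℝ) (hf : Continuous f) (n : ℕ) :
    ∫ x, cc f hf n x ∂(spectralMeasure e T) = traceVal e T (cc f hf n) :=
  integral_spectralMeasure e T _

theorem ae_spec (hT : 0 ≤ T) {K : ℝ} (hK : ‖T‖ ≤ K) :
    ∀ᵐ x ∂(spectralMeasure e T), x ∈ Set.Icc 0 K := by
  have h1 : ∀ n : ℕ, ∀ᵐ x ∂(spectralMeasure e T), cc (outF K) (outF_continuous K) n x = 0 := by
    intro n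
    have h2 := cc_integral e T (outF K) (outF_continuous K) n
    have h3 : traceVal e T (cc (outF K) (outF_continuous K) n) = traceVal e T (fun _ => 0) := by
      apply traceVal_congr e T hT hK
      intro x hx
      rw [cc_apply, outF_eq_zero hx, zero_mul]
    have h4 : traceVal e T (fun _ => 0) = 0 := by
      unfold traceVal
      apply Finset.sum_eq_zero
      intro i _
      rw [cfc_const_zero]
      simp
    rw [h3, h4] at h2
    rw [integral_eq_zero_iff_of_nonneg] at h2
    · filter_upwards [h2] with x hx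
      exact hx
    · intro x
      exact mul_nonneg (outF_nonneg _ _) (cut_nonneg _ _)
    · exact (cc (outF K) (outF_continuous K) n).continuous.integrable_of_hasCompactSupport
        (cc (outF K) (outF_continuous K) n).hasCompactSupport
  filter_upwards [ae_all_iff.2 h1] with x hx
  obtain ⟨n, hn⟩ := exists_nat_ge |x|
  have h2 := hx n
  rw [cc_apply, cut_eq_one hn, mul_one] at h2
  exact mem_of_outF h2

theorem cpt_spec (hT : 0 ≤ T) {K : ℝ} (hK : ‖T‖ ≤ K) : Cpt (spectralMeasure e T) K := by
  have h1 : spectralMeasure e T (Set.Icc 0 K)ᶜ = 0 := by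
    have := ae_spec e T hT hK
    rw [ae_iff] at this
    exact this
  refine ⟨⟨?_⟩, (norm_nonneg _).trans hK, h1⟩
  rw [← Set.union_compl_self (Set.Icc 0 K)]
  refine (measure_union_le _ _).trans_lt ?_
  rw [h1, add_zero]
  exact isCompact_Icc.measure_lt_top

theorem int_spec (hT : 0 ≤ T) {f : ℝ → ℝ} (hf : Continuous f) :
    ∫ x, f x ∂(spectralMeasure e T) = traceVal e T f := by
  obtain ⟨n, hn⟩ := exists_nat_ge ‖T‖
  have h1 : traceVal e T (cc f hf n) = traceVal e T f := by
    apply traceVal_congr e T hT le_rfl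
    intro x hx
    rw [cc_apply, cut_eq_one, mul_one]
    rw [abs_of_nonneg hx.1]
    exact hx.2.trans hn
  rw [← h1, ← cc_integral]
  refine integral_congr_ae ?_
  filter_upwards [ae_spec e T hT le_rfl] with x hx
  rw [cc_apply, cut_eq_one, mul_one]
  rw [abs_of_nonneg hx.1]
  exact hx.2.trans hn

theorem atom_of_inj (he : ∀ i, ‖e i‖ ≤ 1) (hT : 0 ≤ T) (hinj : ∀ v, T v = 0 → v = 0) :
    spectralMeasure e T {0} = 0 := by
  have hc := cpt_spec e T hT le_rfl
  have := hc.fin
  have h1 : (spectralMeasure e T).real {0} ≤ 0 := by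
    apply le_of_forall_pos_le_add
    intro ε hε
    obtain ⟨δ, hδ, hb⟩ := bump_small e he T hT hinj hε
    rw [zero_add]
    refine le_trans ?_ hb
    rw [← int_spec e T hT (bump_continuous δ)]
    have h2 : (spectralMeasure e T).real {0} = ∫ x, Set.indicator {0} (fun _ => (1 : ℝ)) x ∂(spectralMeasure e T) := by
      rw [integral_indicator_const _ (measurableSet_singleton 0), smul_eq_mul, mul_one]
    rw [h2]
    refine integral_mono ((integrable_const _).indicator (measurableSet_singleton 0))
      (hc.integrable (bump_continuous δ)) ?_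
    intro x
    by_cases hx : x = 0
    · subst hx
      simp [bump_zero]
    · rw [Set.indicator_of_notMem (by simpa using hx)]
      exact bump_nonneg _ _
  have h3 : (spectralMeasure e T).real {0} = 0 := le_antisymm h1 measureReal_nonneg
  rw [measureReal_eq_zero_iff] at h3
  exact h3

/-- the trace of the bump functions tends to the mass at zero -/
theorem bump_lim (hT : 0 ≤ T) (h0 : spectralMeasure e T {0} = 0) {ε : ℝ} (hε : 0 < ε) :
    ∃ δ, 0 < δ ∧ traceVal e T (bump δ) ≤ ε := by
  have hc := cpt_spec e T hT le_rfl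
  have := hc.fin
  have h1 : Filter.Tendsto (fun n : ℕ => ∫ x, bump (1 / ((n : ℝ) + 1)) x ∂(spectralMeasure e T)) Filter.atTop
      (𝓝 (∫ _x, (0 : ℝ) ∂(spectralMeasure e T))) := by
    apply tendsto_integral_of_dominated_convergence (fun _ => 1)
    · intro n
      exact (bump_continuous _).aestronglyMeasurable
    · exact integrable_const _
    · intro n
      refine Filter.Eventually.of_forall fun x => ?_
      rw [Real.norm_eq_abs, abs_of_nonneg (bump_nonneg _ _)]
      exact bump_le_one _ _
    · have h3 : ∀ᵐ x ∂(spectralMeasure e T), x ≠ 0 := by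
        rw [ae_iff]
        simpa using h0
      filter_upwards [hc.ae, h3] with x hx hx0
      have hpos : 0 < x := lt_of_le_of_ne hx.1 (Ne.symm hx0)
      apply tendsto_const_nhds.congr'
      obtain ⟨m, hm⟩ := exists_nat_gt (1 / x)
      filter_upwards [Filter.eventually_ge_atTop m] with k hk
      have hk' : (m : ℝ) ≤ k := by exact_mod_cast hk
      rw [bump_of_le (by positivity)]
      rw [div_le_iff₀ (by positivity)]
      rw [div_lt_iff₀ hpos] at hm
      nlinarith
  rw [integral_zero] at h1
  obtain ⟨n, hn⟩ := (h1.eventually_lt_const hε).exists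
  refine ⟨1 / ((n : ℝ) + 1), by positivity, ?_⟩
  rw [← int_spec e T hT (bump_continuous _)]
  exact hn.le

/-- the spectral measure of the square -/
theorem spec_sq (hT : 0 ≤ T) : specMeas e T = (spectralMeasure e T).map fun x => x ^ 2 := by
  have hc := cpt_spec e T hT le_rfl
  have i1 := hc.fin
  have hsa : IsSelfAdjoint T := IsSelfAdjoint.of_nonneg hT
  have hTT : ContinuousLinearMap.adjoint T ∘L T = T ^ 2 := by
    rw [hsa.adjoint_eq, pow_two]
    rfl
  have hT2 : 0 ≤ T ^ 2 := by
    rw [← hTT]
    exact adjoint_comp_nonneg T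
  have hc2 := cpt_spec e (T ^ 2) hT2 le_rfl
  have i2 := hc2.fin
  unfold specMeas
  rw [hTT]
  apply ext_of_forall_integral_eq_of_IsFiniteMeasure
  intro f
  rw [int_spec e (T ^ 2) hT2 f.continuous, integral_map (by fun_prop) f.continuous.aestronglyMeasurable,
    int_spec e T hT (f := fun x => f (x ^ 2)) (by fun_prop)]
  unfold traceVal
  have : cfc (fun x : ℝ => f (x ^ 2)) T = cfc f (T ^ 2) := by
    have h1 : cfc (fun x : ℝ => x ^ 2) T = T ^ 2 := cfc_pow_id (R := ℝ) T 2
    have h2 := cfc_comp (R := ℝ) (a := T) (p := IsSelfAdjoint) f (fun x : ℝ => x ^ 2) hsa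
      (f.continuous.continuousOn) (by fun_prop)
    rw [h1] at h2
    exact h2
  rw [this]

theorem log_sq (hT : 0 ≤ T) (h0 : spectralMeasure e T {0} = 0) :
    (IntegrableOn Real.log (Set.Ioi 0) (specMeas e T) ↔ Integrable Real.log (spectralMeasure e T)) ∧
    ∫ x in Set.Ioi (0 : ℝ), Real.log x ∂(specMeas e T) = 2 * ∫ x, Real.log x ∂(spectralMeasure e T) := by
  have hc := cpt_spec e T hT le_rfl
  have h3 : ∀ᵐ x ∂(spectralMeasure e T), x ≠ 0 := by
    rw [ae_iff]
    simpa using h0
  have h4 : ∀ᵐ x ∂(spectralMeasure e T), 0 < x := by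
    filter_upwards [hc.ae, h3] with x hx hx0
    exact lt_of_le_of_ne hx.1 (Ne.symm hx0)
  rw [spec_sq e T hT]
  have h5 : ((spectralMeasure e T).map fun x => x ^ 2).restrict (Set.Ioi 0) =
      (spectralMeasure e T).map fun x => x ^ 2 := by
    apply Measure.restrict_eq_self_of_ae_mem
    rw [ae_map_iff (p := fun x => x ∈ Set.Ioi (0 : ℝ)) (f := fun x : ℝ => x ^ 2) (by fun_prop) measurableSet_Ioi]
    filter_upwards [h4] with x hx
    exact pow_pos hx 2
  rw [IntegrableOn, h5]
  have e1 : Integrable Real.log ((spectralMeasure e T).map fun x => x ^ 2) ↔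
      Integrable (Real.log ∘ fun x => x ^ 2) (spectralMeasure e T) :=
    integrable_map_measure Real.measurable_log.aestronglyMeasurable (by fun_prop)
  have e2 : (Real.log ∘ fun x : ℝ => x ^ 2) = fun x => 2 * Real.log x := by
    funext x
    simp
  constructor
  · rw [e1, e2]
    exact integrable_const_mul_iff (by simp) _
  · rw [integral_map (by fun_prop) Real.measurable_log.aestronglyMeasurable]
    simp only [Real.log_pow]
    rw [← integral_const_mul]
    norm_cast

theorem detOf_pos_iff {K : Type} [NormedAddCommGroup K] [InnerProductSpace ℂ K] [CompleteSpace K]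
    (f : H →L[ℂ] K) : 0 < detOf e f ↔ IntegrableOn Real.log (Set.Ioi 0) (specMeas e f) := by
  unfold detOf
  split_ifs with h
  · exact ⟨fun _ => h, fun _ => Real.exp_pos _⟩
  · exact ⟨fun h' => absurd h' (lt_irrefl _), fun h' => absurd h' h⟩

end abs

section groups
variable {G : Type} [Group G] {r : ℕ}

theorem mom_spec (S : Matrix (Fin r) (Fin r) (MonoidAlgebra ℚ G)) (hS : 0 ≤ rMul S) (k : ℕ) :
    ∫ x, x ^ k ∂(spectralMeasure unitVec (rMul S)) = trc (S ^ k) := by
  rw [int_spec unitVec _ hS (continuous_pow k)]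
  have hsa : IsSelfAdjoint (rMul S) := IsSelfAdjoint.of_nonneg hS
  unfold traceVal trc
  refine Finset.sum_congr rfl fun i _ => ?_
  have h1 : cfc (fun x : ℝ => x ^ k) (rMul S) = (rMul S) ^ k := cfc_pow_id (R := ℝ) (rMul S) k
  rw [h1, ← rMul_pow, inner_rMul_unitVec, ← Complex.ofReal_ratCast, Complex.ofReal_re]

/-- Right multiplications commute with translations: a vector in the kernel whose translates have
vanishing coordinates at the unit element vanishes. -/
theorem inj_of_one (S : Matrix (Fin r) (Fin r) (MonoidAlgebra ℚ G))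
    (h : ∀ w, rMul S w = 0 → ∀ j, coord w j 1 = 0) : ∀ v, rMul S v = 0 → v = 0 := by
  intro w hw
  apply coord_ext
  intro j g
  rw [coord_zero]
  obtain ⟨w', hw'⟩ := exists_translate w g
  have h1 : rMul S w' = 0 := by
    apply coord_ext
    intro k h
    rw [coord_zero, rMul_apply]
    have := congrArg (fun x => coord x k (g * h)) hw
    simp only [coord_zero, rMul_apply] at this
    rw [← this]
    simp only [hw', mul_assoc]
  have := h w' h1 j
  rwa [hw', mul_one] at this

theorem inj_of_dimKer (S : Matrix (Fin r) (Fin r) (MonoidAlgebra ℚ G)) (h : dimKer (rMul S) = 0) :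
    ∀ v, rMul S v = 0 → v = 0 := by
  apply inj_of_one
  intro w hw j
  unfold dimKer at h
  have hn : ∀ i ∈ (Finset.univ : Finset (Fin r)), 0 ≤ (⟪(unitVec i : L2Pow G r),
      (rMul S).ker.starProjection (unitVec i)⟫_ℂ).re := by
    intro i _
    have := (rMul S).ker.starProjection_inner_eq_zero (unitVec i : L2Pow G r)
    have h2 : (⟪(unitVec i : L2Pow G r), (rMul S).ker.starProjection (unitVec i)⟫_ℂ).re =
        ‖(rMul S).ker.starProjection (unitVec i : L2Pow G r)‖ ^ 2 := by
      rw [norm_sq_eq_re_inner (𝕜 := ℂ), Submodule.inner_starProjection_left_eq_right,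
        Submodule.starProjection_eq_self_iff.2 (Submodule.starProjection_apply_mem _ _)]
      rfl
    rw [h2]
    positivity
  rw [Finset.sum_eq_zero_iff_of_nonneg hn] at h
  have h1 := h j (Finset.mem_univ j)
  have h2 : (rMul S).ker.starProjection (unitVec j : L2Pow G r) = 0 := by
    have h2 : (⟪(unitVec j : L2Pow G r), (rMul S).ker.starProjection (unitVec j)⟫_ℂ).re =
        ‖(rMul S).ker.starProjection (unitVec j : L2Pow G r)‖ ^ 2 := by
      rw [norm_sq_eq_re_inner (𝕜 := ℂ), Submodule.inner_starProjection_left_eq_right,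
        Submodule.starProjection_eq_self_iff.2 (Submodule.starProjection_apply_mem _ _)]
      rfl
    rw [h2] at h1
    exact norm_eq_zero.1 (pow_eq_zero_iff two_ne_zero |>.1 h1)
  rw [← inner_unitVec]
  have h3 : w = (rMul S).ker.starProjection w :=
    (Submodule.starProjection_eq_self_iff.2 (LinearMap.mem_ker.2 hw)).symm
  rw [h3]
  refine ((rMul S).ker.inner_starProjection_left_eq_right (unitVec j) w).symm.trans ?_
  rw [h2]
  exact inner_zero_left _

theorem inj_of_atom (S : Matrix (Fin r) (Fin r) (MonoidAlgebra ℚ G)) (hS : 0 ≤ rMul S)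
    (h0 : spectralMeasure unitVec (rMul S) {0} = 0) : ∀ v, rMul S v = 0 → v = 0 := by
  apply inj_of_one
  intro w hw j
  have h1 : ‖coord w j 1‖ ^ 2 ≤ 0 := by
    apply le_of_forall_pos_le_add
    intro ε hε
    obtain ⟨δ, hδ, hb⟩ := bump_lim unitVec (rMul S) hS h0 (ε := ε / (‖w‖ ^ 2 + 1)) (by positivity)
    rw [zero_add, ← inner_unitVec]
    refine (inner_ker_le unitVec (rMul S) hS δ w hw j).trans ?_
    refine (mul_le_mul_of_nonneg_right hb (by positivity)).trans ?_
    rw [div_mul_eq_mul_div, div_le_iff₀ (by positivity)]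
    nlinarith [sq_nonneg ‖w‖]
  have h2 := norm_nonneg (coord w j 1)
  have h3 : ‖coord w j 1‖ = 0 := by nlinarith
  exact norm_eq_zero.1 h3

end groups

end Pool.Agent.U755.LT
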